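import Mathlib

/-!
# Step 1 for MP_325208 beyond `q / 2`: a non-hole with few tangents

In a projective plane of order `q` let `B` be a set of `q + d` points, `12 d ≤ 7 q`, such that every
line contains a point of `B`.  Then some point outside `B` lies on at most `2 (q - d) + 1` lines
that contain exactly one point of `B`.
-/

open Finset
open scoped Classical

namespace Pool.Agent.H27.PS

variable {P L : Type*} [Fintype P] [Fintype L]

set_option linter.unusedSectionVars false

/-- the number of points of `B` on the line `l` -/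
noncomputable def jj (inc : P → L → Prop) (B : Finset P) (l : L) : ℕ :=
  (B.filter fun p => inc p l).card

/-- sum of the `j (l)` over the lines through a point outside `B` -/
theorem sum_jj_through (inc : P → L → Prop)
    (h2 : ∀ p p' : P, p ≠ p' → (univ.filter fun l => inc p l ∧ inc p' l).card = 1)
    (B : Finset P) {Z : P} (hZ : Z ∉ B) :
    ∑ l ∈ univ.filter (fun l => inc Z l), (jj inc B l : ℤ) = B.card := by
  have h1 : ∀ l : L, (jj inc B l : ℤ) = ∑ p ∈ B, if inc p l then 1 else 0 := by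
    intro l
    rw [Finset.sum_boole]
    rfl
  simp_rw [h1]
  rw [Finset.sum_comm]
  have h3 : ∀ p ∈ B, (∑ l ∈ univ.filter (fun l => inc Z l), if inc p l then (1 : ℤ) else 0) = 1 := by
    intro p hp
    rw [Finset.sum_boole, Finset.filter_filter, h2 Z p (fun h => hZ (h ▸ hp))]
    rfl
  rw [Finset.sum_congr rfl h3]
  simp

theorem sum_jj (inc : P → L → Prop) {q : ℕ} (hp : ∀ p : P, (univ.filter fun l => inc p l).card = q + 1)
    (B : Finset P) : ∑ l : L, (jj inc B l : ℤ) = B.card * (q + 1) := by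
  have h1 : ∀ l : L, (jj inc B l : ℤ) = ∑ p ∈ B, if inc p l then 1 else 0 := by
    intro l
    rw [Finset.sum_boole]
    rfl
  simp_rw [h1]
  rw [Finset.sum_comm]
  have h3 : ∀ p ∈ B, (∑ l : L, if inc p l then (1 : ℤ) else 0) = q + 1 := by
    intro p _
    rw [Finset.sum_boole, hp p]
    push_cast
    rfl
  rw [Finset.sum_congr rfl h3]
  simp

theorem sum_jj_sq (inc : P → L → Prop) {q : ℕ}
    (hp : ∀ p : P, (univ.filter fun l => inc p l).card = q + 1)
    (h2 : ∀ p p' : P, p ≠ p' → (univ.filter fun l => inc p l ∧ inc p' l).card = 1)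
    (B : Finset P) : ∑ l : L, (jj inc B l : ℤ) ^ 2 = B.card * (q + B.card) := by
  have h1 : ∀ l : L, (jj inc B l : ℤ) = ∑ p ∈ B, if inc p l then 1 else 0 := by
    intro l
    rw [Finset.sum_boole]
    rfl
  have h4 : ∀ l : L, (jj inc B l : ℤ) ^ 2 =
      ∑ p ∈ B, ∑ p' ∈ B, if inc p l ∧ inc p' l then 1 else 0 := by
    intro l
    rw [sq, h1, Finset.sum_mul_sum]
    refine Finset.sum_congr rfl fun p _ => Finset.sum_congr rfl fun p' _ => ?_
    by_cases a : inc p l <;> by_cases b : inc p' l <;> simp [a, b]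
  simp_rw [h4]
  rw [Finset.sum_comm]
  have h3 : ∀ p ∈ B, (∑ l : L, ∑ p' ∈ B, if inc p l ∧ inc p' l then (1 : ℤ) else 0) =
      q + B.card := by
    intro p hpB
    rw [Finset.sum_comm]
    rw [← Finset.add_sum_erase B _ hpB]
    have h5 : (∑ l : L, if inc p l ∧ inc p l then (1 : ℤ) else 0) = q + 1 := by
      simp only [and_self]
      rw [Finset.sum_boole, hp p]
      push_cast
      rfl
    have h6 : ∀ p' ∈ B.erase p, (∑ l : L, if inc p l ∧ inc p' l then (1 : ℤ) else 0) = 1 := by
      intro p' hp'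
      rw [Finset.sum_boole, h2 p p' (Ne.symm (Finset.ne_of_mem_erase hp'))]
      rfl
    rw [h5, Finset.sum_congr rfl h6]
    simp only [Finset.sum_const, nsmul_eq_mul, mul_one]
    rw [Finset.card_erase_of_mem hpB]
    have : 1 ≤ B.card := Finset.card_pos.2 ⟨p, hpB⟩
    push_cast [this]
    ring
  rw [Finset.sum_congr rfl h3]
  simp

theorem final_ineq {q d : ℤ} (hd : 1 ≤ d) (h12 : 12 * d ≤ 7 * q) :
    9 * ((q - 1) * ((q + d) * (q + d - 1))) < (q ^ 2 + 1 - d) * (100 * q - 131 * d + 31) := by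
  obtain ⟨e, he⟩ : ∃ e, e = 7 * q - 12 * d := ⟨_, rfl⟩
  obtain ⟨f, hf⟩ : ∃ f, f = d - 1 := ⟨_, rfl⟩
  have he0 : 0 ≤ e := by linarith
  have hf0 : 0 ≤ f := by linarith
  have h1 : 343 * ((q ^ 2 + 1 - d) * (100 * q - 131 * d + 31) -
      9 * ((q - 1) * ((q + d) * (q + d - 1)))) =
      1764 * f ^ 3 + 13839 * f ^ 2 * e + 59780 * f ^ 2 + 2233 * f * e ^ 2 + 32333 * f * e +
        109123 * f + 91 * e ^ 3 + 2576 * e ^ 2 + 22953 * e + 61740 := by
    rw [he, hf]; ring
  have h2 : 0 < 1764 * f ^ 3 + 13839 * f ^ 2 * e + 59780 * f ^ 2 + 2233 * f * e ^ 2 +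
      32333 * f * e + 109123 * f + 91 * e ^ 3 + 2576 * e ^ 2 + 22953 * e + 61740 := by
    positivity
  linarith

/-- **Step 1.** Some point outside `B` lies on at most `2 (q - d) + 1` tangents of `B`. -/
theorem exists_center (inc : P → L → Prop) {q d : ℕ} (hP : Fintype.card P = q ^ 2 + q + 1)
    (hl : ∀ l : L, (univ.filter fun p => inc p l).card = q + 1)
    (hp : ∀ p : P, (univ.filter fun l => inc p l).card = q + 1)
    (h2 : ∀ p p' : P, p ≠ p' → (univ.filter fun l => inc p l ∧ inc p' l).card = 1)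
    (B : Finset P) (hB : B.card = q + d) (hd : 1 ≤ d) (h12 : 12 * d ≤ 7 * q) :
    ∃ Z, Z ∉ B ∧ (univ.filter fun l => inc Z l ∧ jj inc B l = 1).card ≤ 2 * (q - d) + 1 := by
  by_contra hcon
  push Not at hcon
  have hdq : d ≤ q := by omega
  have hbz : (B.card : ℤ) = q + d := by rw [hB]; push_cast; rfl
  -- the estimate at one point
  have hone : ∀ Z, Z ∉ B → (100 * (q : ℤ) - 131 * d + 31) ≤
      9 * ∑ l ∈ univ.filter (fun l => inc Z l), ((jj inc B l : ℤ) ^ 2 - jj inc B l) := by
    intro Z hZ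
    have h1 := hcon Z hZ
    have ht : ((univ.filter fun l => inc Z l ∧ jj inc B l = 1).card : ℤ) =
        ∑ l ∈ univ.filter (fun l => inc Z l), if jj inc B l = 1 then 1 else 0 := by
      rw [Finset.sum_boole, Finset.filter_filter]
    have h3 : 100 * (∑ l ∈ univ.filter (fun l => inc Z l), if jj inc B l = 1 then (1 : ℤ) else 0) ≤
        ∑ l ∈ univ.filter (fun l => inc Z l), (13 - 3 * (jj inc B l : ℤ)) ^ 2 := by
      rw [Finset.mul_sum]
      refine Finset.sum_le_sum fun l _ => ?_
      split_ifs with h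
      · rw [h]; norm_num
      · nlinarith [sq_nonneg (13 - 3 * (jj inc B l : ℤ))]
    have h4 : ∑ l ∈ univ.filter (fun l => inc Z l), (13 - 3 * (jj inc B l : ℤ)) ^ 2 =
        169 * (q + 1) - 69 * (q + d) +
          9 * ∑ l ∈ univ.filter (fun l => inc Z l), ((jj inc B l : ℤ) ^ 2 - jj inc B l) := by
      have h5 : ∀ l : L, (13 - 3 * (jj inc B l : ℤ)) ^ 2 =
          169 - 69 * (jj inc B l : ℤ) + 9 * ((jj inc B l : ℤ) ^ 2 - jj inc B l) := fun l => by ring
      simp_rw [h5]
      rw [Finset.sum_add_distrib, Finset.sum_sub_distrib, ← Finset.mul_sum, ← Finset.mul_sum,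
        sum_jj_through inc h2 B hZ, hbz, Finset.sum_const, hp Z, nsmul_eq_mul]
      push_cast
      ring
    rw [← ht, h4] at h3
    have h6 : (2 * ((q : ℤ) - d) + 2) ≤
        ((univ.filter fun l => inc Z l ∧ jj inc B l = 1).card : ℤ) := by
      have : 2 * (q - d) + 2 ≤ (univ.filter fun l => inc Z l ∧ jj inc B l = 1).card := h1
      have h7 : ((2 * (q - d) + 2 : ℕ) : ℤ) ≤
        ((univ.filter fun l => inc Z l ∧ jj inc B l = 1).card : ℤ) := by exact_mod_cast this
      rw [Nat.cast_add, Nat.cast_mul, Nat.cast_sub hdq] at h7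
      exact h7
    linarith
  -- summing over the points outside B
  have hN : ((univ.filter fun Z : P => Z ∉ B).card : ℤ) = (q : ℤ) ^ 2 + 1 - d := by
    have h1 : (univ.filter fun Z : P => Z ∉ B).card + B.card = Fintype.card P := by
      have h3 := Finset.card_filter_add_card_filter_not (s := (univ : Finset P)) (fun Z => Z ∈ B)
      rw [Finset.filter_mem_eq_inter, Finset.univ_inter, Finset.card_univ] at h3
      rw [← h3]
      ring
    rw [hP, hB] at h1
    have h3 : (((univ.filter fun Z : P => Z ∉ B).card + (q + d) : ℕ) : ℤ) =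
      ((q ^ 2 + q + 1 : ℕ) : ℤ) := by rw [h1]
    push_cast at h3
    linarith
  have hsum := Finset.sum_le_sum (s := univ.filter fun Z : P => Z ∉ B)
    (fun Z hZ => hone Z (Finset.mem_filter.1 hZ).2)
  rw [Finset.sum_const, nsmul_eq_mul, hN, ← Finset.mul_sum] at hsum
  have hswap : ∑ Z ∈ univ.filter (fun Z : P => Z ∉ B), ∑ l ∈ univ.filter (fun l => inc Z l),
      ((jj inc B l : ℤ) ^ 2 - jj inc B l) ≤ ((q : ℤ) - 1) * ((q + d) * (q + d - 1)) := by
    have h1 : ∀ Z : P, ∑ l ∈ univ.filter (fun l => inc Z l), ((jj inc B l : ℤ) ^ 2 - jj inc B l) =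
        ∑ l : L, if inc Z l then ((jj inc B l : ℤ) ^ 2 - jj inc B l) else 0 := fun Z => by
      rw [Finset.sum_filter]
    simp_rw [h1]
    rw [Finset.sum_comm]
    have h3 : ∀ l : L, (∑ Z ∈ univ.filter (fun Z : P => Z ∉ B),
        if inc Z l then ((jj inc B l : ℤ) ^ 2 - jj inc B l) else 0) ≤
        ((q : ℤ) - 1) * ((jj inc B l : ℤ) ^ 2 - jj inc B l) := by
      intro l
      rw [← Finset.sum_filter, Finset.sum_const, nsmul_eq_mul, Finset.filter_filter]
      have h4 : (univ.filter fun Z : P => Z ∉ B ∧ inc Z l).card + jj inc B l = q + 1 := by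
        rw [← hl l]
        have h5 := Finset.card_filter_add_card_filter_not (s := univ.filter fun p => inc p l)
          (fun Z => Z ∉ B)
        rw [Finset.filter_filter, Finset.filter_filter] at h5
        rw [← h5]
        congr 1
        · congr 1
          ext Z
          simp [and_comm]
        · unfold jj
          congr 1
          ext Z
          simp [and_comm]
      have h6 : ((univ.filter fun Z : P => Z ∉ B ∧ inc Z l).card : ℤ) = q + 1 - jj inc B l := by
        have : (((univ.filter fun Z : P => Z ∉ B ∧ inc Z l).card + jj inc B l : ℕ) : ℤ) =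
          ((q + 1 : ℕ) : ℤ) := by rw [h4]
        push_cast at this
        linarith
      rw [h6]
      rcases Nat.lt_or_ge (jj inc B l) 2 with h | h
      · have h7 : ((jj inc B l : ℤ) ^ 2 - jj inc B l) = 0 := by
          have : jj inc B l = 0 ∨ jj inc B l = 1 := by omega
          rcases this with h | h <;> rw [h] <;> norm_num
        rw [h7, mul_zero, mul_zero]
      · have h8 : (2 : ℤ) ≤ jj inc B l := by exact_mod_cast h
        refine mul_le_mul_of_nonneg_right (by linarith) ?_
        nlinarith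
    refine (Finset.sum_le_sum fun l _ => h3 l).trans ?_
    rw [← Finset.mul_sum, Finset.sum_sub_distrib, sum_jj_sq inc hp h2, sum_jj inc hp, hbz]
    have h9 : ((q : ℤ) + d) * (q + (q + d)) - ((q : ℤ) + d) * (q + 1) =
      ((q : ℤ) + d) * (q + d - 1) := by ring
    rw [h9]
  have h10 := final_ineq (q := (q : ℤ)) (d := (d : ℤ)) (by exact_mod_cast hd)
    (by exact_mod_cast h12)
  linarith

end Pool.Agent.H27.PS
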