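import Pool.Agent.H27.PS.CenterB

/-!
# (B0) with up to `2 q + 6` excluded points
-/

set_option autoImplicit false
set_option linter.unusedSectionVars false

open Finset
open scoped Classical

namespace Pool.Agent.H27.PS

variable {P L : Type*} [Fintype P] [Fintype L]

/-- (B0), general form -/
theorem exists_center_gen (inc : P → L → Prop) {q d : ℕ} (hP : Fintype.card P = q ^ 2 + q + 1)
    (hl : ∀ l : L, (univ.filter fun p => inc p l).card = q + 1)
    (hp : ∀ p : P, (univ.filter fun l => inc p l).card = q + 1)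
    (h2 : ∀ p p' : P, p ≠ p' → (univ.filter fun l => inc p l ∧ inc p' l).card = 1)
    (B E : Finset P) (hB : B.card = q + d) {e : ℕ} (hE : E.card ≤ e) (hdq : d ≤ q)
    (hc0 : 0 ≤ 18 * (q : ℤ) - 22 * d - 14)
    (h10 : ((q : ℤ) - 1) * ((q + d) * (q + d - 1)) <
      ((q : ℤ) ^ 2 + 1 - d - e) * (18 * q - 22 * d - 14)) :
    ∃ Z, Z ∉ B ∧ Z ∉ E ∧
      2 * (univ.filter fun l => inc Z l ∧ jj inc B l = 1).card ≤ 5 * (q - d) := by
  by_contra hcon
  push Not at hcon
  have hbz : (B.card : ℤ) = q + d := by rw [hB]; push_cast; rfl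
  -- the estimate at one point
  have hone : ∀ Z, Z ∉ B → Z ∉ E → (18 * (q : ℤ) - 22 * d - 14) ≤
      ∑ l ∈ univ.filter (fun l => inc Z l), ((jj inc B l : ℤ) ^ 2 - jj inc B l) := by
    intro Z hZ hZE
    have h1 := hcon Z hZ hZE
    have ht : ((univ.filter fun l => inc Z l ∧ jj inc B l = 1).card : ℤ) =
        ∑ l ∈ univ.filter (fun l => inc Z l), if jj inc B l = 1 then 1 else 0 := by
      rw [Finset.sum_boole, Finset.filter_filter]
    have h3 : 12 * (∑ l ∈ univ.filter (fun l => inc Z l), if jj inc B l = 1 then (1 : ℤ) else 0) ≤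
        ∑ l ∈ univ.filter (fun l => inc Z l), ((jj inc B l : ℤ) - 4) * ((jj inc B l : ℤ) - 5) := by
      rw [Finset.mul_sum]
      refine Finset.sum_le_sum fun l _ => ?_
      split_ifs with h
      · rw [h]; norm_num
      · rcases Nat.lt_or_ge (jj inc B l) 5 with h5 | h5
        · have h6 : (jj inc B l : ℤ) ≤ 4 := by
            have : jj inc B l ≤ 4 := by omega
            exact_mod_cast this
          nlinarith
        · have h6 : (5 : ℤ) ≤ jj inc B l := by exact_mod_cast h5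
          nlinarith
    have h4 : ∑ l ∈ univ.filter (fun l => inc Z l),
        ((jj inc B l : ℤ) - 4) * ((jj inc B l : ℤ) - 5) =
        20 * (q + 1) - 8 * (q + d) +
          ∑ l ∈ univ.filter (fun l => inc Z l), ((jj inc B l : ℤ) ^ 2 - jj inc B l) := by
      have h5 : ∀ l : L, ((jj inc B l : ℤ) - 4) * ((jj inc B l : ℤ) - 5) =
          20 - 8 * (jj inc B l : ℤ) + ((jj inc B l : ℤ) ^ 2 - jj inc B l) := fun l => by ring
      simp_rw [h5]
      rw [Finset.sum_add_distrib, Finset.sum_sub_distrib, ← Finset.mul_sum,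
        sum_jj_through inc h2 B hZ, hbz, Finset.sum_const, hp Z, nsmul_eq_mul]
      push_cast
      ring
    rw [← ht, h4] at h3
    have h6 : (5 * ((q : ℤ) - d) + 1) ≤
        2 * ((univ.filter fun l => inc Z l ∧ jj inc B l = 1).card : ℤ) := by
      have h7 : ((5 * (q - d) + 1 : ℕ) : ℤ) ≤
        ((2 * (univ.filter fun l => inc Z l ∧ jj inc B l = 1).card : ℕ) : ℤ) := by
        exact_mod_cast h1
      rw [Nat.cast_add, Nat.cast_mul, Nat.cast_sub hdq] at h7
      push_cast at h7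
      exact h7
    linarith
  -- the number of points used
  have hN : (q : ℤ) ^ 2 + 1 - d - e ≤ ((univ.filter fun Z : P => Z ∉ B ∧ Z ∉ E).card : ℤ) := by
    have h1 : Fintype.card P ≤ (univ.filter fun Z : P => Z ∉ B ∧ Z ∉ E).card + (B.card + E.card) := by
      rw [← Finset.card_univ]
      refine (Finset.card_le_card (?_ : (univ : Finset P) ⊆
        (univ.filter fun Z : P => Z ∉ B ∧ Z ∉ E) ∪ (B ∪ E))).trans ?_
      · intro Z _
        simp only [Finset.mem_union, Finset.mem_filter, Finset.mem_univ, true_and]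
        tauto
      · refine (Finset.card_union_le _ _).trans ?_
        exact Nat.add_le_add_left (Finset.card_union_le _ _) _
    rw [hP, hB] at h1
    have h3 : ((q ^ 2 + q + 1 : ℕ) : ℤ) ≤
      (((univ.filter fun Z : P => Z ∉ B ∧ Z ∉ E).card + (q + d + E.card) : ℕ) : ℤ) := by
      exact_mod_cast h1
    have h4 : (E.card : ℤ) ≤ e := by exact_mod_cast hE
    push_cast at h3
    linarith
  have hsum := Finset.sum_le_sum (s := univ.filter fun Z : P => Z ∉ B ∧ Z ∉ E)
    (fun Z hZ => hone Z (Finset.mem_filter.1 hZ).2.1 (Finset.mem_filter.1 hZ).2.2)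
  rw [Finset.sum_const, nsmul_eq_mul] at hsum
  have hsub : ∑ Z ∈ univ.filter (fun Z : P => Z ∉ B ∧ Z ∉ E),
      ∑ l ∈ univ.filter (fun l => inc Z l), ((jj inc B l : ℤ) ^ 2 - jj inc B l) ≤
      ∑ Z ∈ univ.filter (fun Z : P => Z ∉ B),
      ∑ l ∈ univ.filter (fun l => inc Z l), ((jj inc B l : ℤ) ^ 2 - jj inc B l) := by
    refine Finset.sum_le_sum_of_subset_of_nonneg ?_ ?_
    · intro Z hZ
      rw [Finset.mem_filter] at hZ ⊢
      exact ⟨hZ.1, hZ.2.1⟩
    · intro Z _ _
      exact Finset.sum_nonneg fun l _ => pairs_nonneg _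
  have hswap := sum_pairs_le inc (d := d) hl hp h2 B hB
  have h11 := mul_le_mul_of_nonneg_right hN hc0
  linarith

theorem final_ineq_E {q d : ℤ} (hq : 19 ≤ q) (hd : 1 ≤ d) (h3 : 3 * d + 1 ≤ 2 * q) :
    (q - 1) * ((q + d) * (q + d - 1)) <
      (q ^ 2 + 1 - d - (2 * q + 6)) * (18 * q - 22 * d - 14) := by
  obtain ⟨g, hg⟩ : ∃ g, g = 2 * q - 1 - 3 * d := ⟨_, rfl⟩
  obtain ⟨a, ha⟩ : ∃ a, a = q - 19 := ⟨_, rfl⟩
  have hg0 : 0 ≤ g := by linarith
  have ha0 : 0 ≤ a := by linarith
  have hga : 0 ≤ 2 * a + 34 - g := by linarith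
  have h1 : 9 * ((q ^ 2 + 1 - d - (2 * q + 6)) * (18 * q - 22 * d - 14) -
      (q - 1) * ((q + d) * (q + d - 1))) =
      5 * a ^ 3 + 74 * (a ^ 2 * g) + 195 * a ^ 2 + 2673 * (a * g) + 1986 * a + 4 * g ^ 2 +
        23674 * g + 1918 + a * g * (2 * a + 34 - g) := by
    rw [hg, ha]; ring
  have h2 : 0 ≤ a * g * (2 * a + 34 - g) := mul_nonneg (mul_nonneg ha0 hg0) hga
  have h4 : 0 < 5 * a ^ 3 + 74 * (a ^ 2 * g) + 195 * a ^ 2 + 2673 * (a * g) + 1986 * a +
      4 * g ^ 2 + 23674 * g + 1918 := by positivity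
  linarith

section pd

open H8.PS

variable [Membership P L] [Configuration.ProjectivePlane P L]

/-- (B0) for `PlaneData` with up to `2 q + 6` excluded points -/
theorem exists_center_E_pd {q d : ℕ} {B : Finset P} (h : PlaneData P L q d B) (E : Finset P)
    (hE : E.card ≤ 2 * q + 6) (hq : 19 ≤ q) (hd : 1 ≤ d) (h3d : 3 * d + 1 ≤ 2 * q) :
    ∃ Z, Z ∉ B ∧ Z ∉ E ∧ 2 * (T L B Z).card ≤ 5 * (q - d) := by
  have hP : Fintype.card P = q ^ 2 + q + 1 := by
    have := Configuration.ProjectivePlane.card_points P L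
    rw [h.order] at this
    exact this
  have h5 : (3 : ℤ) * d + 1 ≤ 2 * q := by exact_mod_cast h3d
  have h6 : (19 : ℤ) ≤ q := by exact_mod_cast hq
  have h7 : (1 : ℤ) ≤ d := by exact_mod_cast hd
  obtain ⟨Z, hZ, hZE, hc⟩ := exists_center_gen (fun (p : P) (l : L) => p ∈ l) hP
    (fun l => by rw [← h.order]; exact Cnt.card_on l)
    (fun p => by rw [← h.order]; exact Cnt.card_through p)
    Cnt.card_two B E h.card hE (by omega) (by linarith) (by
      push_cast
      exact final_ineq_E h6 h7 h5)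
  refine ⟨Z, hZ, hZE, ?_⟩
  rw [Cnt.card_T B hZ]
  exact hc

end pd

end Pool.Agent.H27.PS
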