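import Pool.Agent.H27.PS.Center
import Pool.Agent.H8.PS.PlaneData

/-!
# Step 1 for `PlaneData`: a non-hole with few tangent holes
-/

set_option autoImplicit false

open Finset
open scoped Classical

namespace Pool.Agent.H27.PS

open H8.PS

variable {P L : Type*} [Fintype P] [Fintype L] [Membership P L] [Configuration.ProjectivePlane P L]

theorem mem_T {B : Finset P} {Z X : P} :
    X ∈ T L B Z ↔ X ∈ B ∧ ∀ l : L, Z ∈ l → X ∈ l → ∀ Y ∈ B, Y ∈ l → Y = X := by
  unfold T
  simp only [Finset.mem_filter]

/-- **Step 1.** If `12 d ≤ 7 q`, some non-hole has at most `2 (q - d) + 1` tangent holes. -/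
theorem exists_center_pd {q d : ℕ} {B : Finset P} (h : PlaneData P L q d B) (hd : 1 ≤ d)
    (h12 : 12 * d ≤ 7 * q) : ∃ Z, Z ∉ B ∧ (T L B Z).card ≤ 2 * (q - d) + 1 := by
  have hP : Fintype.card P = q ^ 2 + q + 1 := by
    have := Configuration.ProjectivePlane.card_points P L
    rw [h.order] at this
    exact this
  have hl : ∀ l : L, (univ.filter fun p : P => p ∈ l).card = q + 1 := by
    intro l
    have := Configuration.ProjectivePlane.pointCount_eq P l
    rw [h.order, Configuration.pointCount, Nat.card_eq_fintype_card, Fintype.card_subtype] at this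
    exact this
  have hp : ∀ p : P, (univ.filter fun l : L => p ∈ l).card = q + 1 := by
    intro p
    have := Configuration.ProjectivePlane.lineCount_eq (P := P) L p
    rw [h.order, Configuration.lineCount, Nat.card_eq_fintype_card, Fintype.card_subtype] at this
    exact this
  have h2 : ∀ p p' : P, p ≠ p' → (univ.filter fun l : L => p ∈ l ∧ p' ∈ l).card = 1 := by
    intro p p' hpp
    rw [Finset.card_eq_one]
    refine ⟨Configuration.HasLines.mkLine hpp, ?_⟩
    ext l
    simp only [Finset.mem_filter, Finset.mem_univ, true_and, Finset.mem_singleton]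
    constructor
    · intro hpl
      have h3 := Configuration.HasLines.mkLine_ax (L := L) hpp
      exact (Configuration.Nondegenerate.eq_or_eq hpl.1 hpl.2 h3.1 h3.2).resolve_left hpp
    · rintro rfl
      exact Configuration.HasLines.mkLine_ax hpp
  obtain ⟨Z, hZ, hc⟩ := exists_center (fun (p : P) (l : L) => p ∈ l) hP hl hp h2 B h.card hd h12
  refine ⟨Z, hZ, le_trans ?_ hc⟩
  -- a tangent hole goes to its tangent
  have hne : ∀ X ∈ T L B Z, Z ≠ X := by
    intro X hX hZX
    rw [mem_T] at hX
    exact hZ (hZX ▸ hX.1)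
  have hex : ∀ X : P, ∃ l : L, X ∈ T L B Z → (Z ∈ l ∧ X ∈ l) := by
    intro X
    by_cases hX : X ∈ T L B Z
    · exact ⟨Configuration.HasLines.mkLine (hne X hX), fun _ =>
        Configuration.HasLines.mkLine_ax (hne X hX)⟩
    · have h3 : 0 < (univ.filter fun l : L => Z ∈ l).card := by rw [hp Z]; omega
      obtain ⟨l, -⟩ := Finset.card_pos.1 h3
      exact ⟨l, fun h => absurd h hX⟩
  choose f hf using hex
  refine Finset.card_le_card_of_injOn f ?_ ?_
  · intro X hX
    rw [Finset.mem_coe] at hX
    obtain ⟨h3, h4⟩ := hf X hX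
    rw [mem_T] at hX
    simp only [Finset.coe_filter, Set.mem_ofPred_eq, Finset.mem_univ, true_and]
    refine ⟨h3, ?_⟩
    unfold jj
    rw [Finset.card_eq_one]
    refine ⟨X, ?_⟩
    ext Y
    simp only [Finset.mem_filter, Finset.mem_singleton]
    constructor
    · rintro ⟨hY, hYl⟩
      exact hX.2 (f X) h3 h4 Y hY hYl
    · rintro rfl
      exact ⟨hX.1, h4⟩
  · intro X hX X' hX' heq
    rw [Finset.mem_coe] at hX hX'
    obtain ⟨h3, h4⟩ := hf X hX
    obtain ⟨h5, h6⟩ := hf X' hX'
    rw [mem_T] at hX hX'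
    rw [← heq] at h6
    exact (hX.2 (f X) h3 h4 X' hX'.1 h6).symm

end Pool.Agent.H27.PS
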