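import Pool.Agent.H27.PS.CenterPD

/-!
# The counting lemmas of `H97/PS/Cnt.lean`
-/

set_option autoImplicit false
set_option linter.unusedSectionVars false

open Configuration Finset H8.PS
open scoped Classical

namespace Pool.Agent.H27.PS.Cnt

variable {P L : Type*} [Fintype P] [Fintype L] [Membership P L] [ProjectivePlane P L]

/-- there are `q + 1` lines through a point -/
theorem card_through (Z : P) :
    (Finset.univ.filter fun l : L => Z ∈ l).card = ProjectivePlane.order P L + 1 := by
  have := Configuration.ProjectivePlane.lineCount_eq (P := P) L Z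
  rw [Configuration.lineCount, Nat.card_eq_fintype_card, Fintype.card_subtype] at this
  exact this

/-- there are `q + 1` points on a line -/
theorem card_on (l : L) :
    (Finset.univ.filter fun p : P => p ∈ l).card = ProjectivePlane.order P L + 1 := by
  have := Configuration.ProjectivePlane.pointCount_eq P l
  rw [Configuration.pointCount, Nat.card_eq_fintype_card, Fintype.card_subtype] at this
  exact this

theorem card_two (p p' : P) (hpp : p ≠ p') :
    (univ.filter fun l : L => p ∈ l ∧ p' ∈ l).card = 1 := by
  rw [Finset.card_eq_one]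
  refine ⟨Configuration.HasLines.mkLine hpp, ?_⟩
  ext l
  simp only [Finset.mem_filter, Finset.mem_univ, true_and, Finset.mem_singleton]
  constructor
  · intro hpl
    have h3 := Configuration.HasLines.mkLine_ax (L := L) hpp
    exact (Configuration.Nondegenerate.eq_or_eq hpl.1 hpl.2 h3.1 h3.2).resolve_left hpp
  · rintro rfl
    exact Configuration.HasLines.mkLine_ax hpp

theorem on_eq (B : Finset P) (l : L) : (on B l).card = jj (fun (p : P) (l : L) => p ∈ l) B l := rfl

/-- the lines through a point outside `B` partition `B` -/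
theorem sum_through (B : Finset P) {Z : P} (hZ : Z ∉ B) :
    ∑ l ∈ Finset.univ.filter (fun l : L => Z ∈ l), (on B l).card = B.card := by
  have h := sum_jj_through (fun (p : P) (l : L) => p ∈ l) card_two B hZ
  simp_rw [on_eq]
  exact_mod_cast h

/-- first moment -/
theorem sum_on (B : Finset P) : ∑ l : L, (on B l).card = B.card * (ProjectivePlane.order P L + 1) := by
  have h := sum_jj (fun (p : P) (l : L) => p ∈ l) (q := ProjectivePlane.order P L)
    (fun p => card_through p) B
  simp_rw [on_eq]
  exact_mod_cast h

/-- second moment -/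
theorem sum_on_sq (B : Finset P) :
    ∑ l : L, (on B l).card * ((on B l).card - 1) = B.card * (B.card - 1) := by
  have h := sum_jj_sq (fun (p : P) (l : L) => p ∈ l) (q := ProjectivePlane.order P L)
    (fun p => card_through p) card_two B
  have h' := sum_jj (fun (p : P) (l : L) => p ∈ l) (q := ProjectivePlane.order P L)
    (fun p => card_through p) B
  simp_rw [on_eq]
  have hc : ∀ n : ℕ, ((n * (n - 1) : ℕ) : ℤ) = (n : ℤ) ^ 2 - n := by
    intro n
    rcases Nat.eq_zero_or_pos n with h0 | h0
    · subst h0; norm_num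
    · rw [Nat.cast_mul, Nat.cast_sub h0]; push_cast; ring
  have h1 : ((∑ l : L, jj (fun (p : P) (l : L) => p ∈ l) B l *
      (jj (fun (p : P) (l : L) => p ∈ l) B l - 1) : ℕ) : ℤ) = ((B.card * (B.card - 1) : ℕ) : ℤ) := by
    rw [Nat.cast_sum]
    simp_rw [hc]
    rw [Finset.sum_sub_distrib, h, h']
    ring
  exact_mod_cast h1

/-- tangent points and tangent lines through a point outside `B` -/
theorem card_T (B : Finset P) {Z : P} (hZ : Z ∉ B) :
    (T L B Z).card = (Finset.univ.filter fun l : L => Z ∈ l ∧ (on B l).card = 1).card := by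
  have hne : ∀ X ∈ T L B Z, Z ≠ X := by
    intro X hX hZX
    rw [mem_T] at hX
    exact hZ (hZX ▸ hX.1)
  refine Finset.card_bij (fun X hX => Configuration.HasLines.mkLine (L := L) (hne X hX)) ?_ ?_ ?_
  · intro X hX
    obtain ⟨h3, h4⟩ := Configuration.HasLines.mkLine_ax (L := L) (hne X hX)
    rw [mem_T] at hX
    rw [Finset.mem_filter]
    refine ⟨Finset.mem_univ _, h3, ?_⟩
    rw [Finset.card_eq_one]
    refine ⟨X, ?_⟩
    ext Y
    unfold on
    simp only [Finset.mem_filter, Finset.mem_singleton]
    constructor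
    · rintro ⟨hY, hYl⟩
      exact hX.2 _ h3 h4 Y hY hYl
    · rintro rfl
      exact ⟨hX.1, h4⟩
  · intro X hX X' hX' heq
    obtain ⟨h3, h4⟩ := Configuration.HasLines.mkLine_ax (L := L) (hne X hX)
    obtain ⟨h5, h6⟩ := Configuration.HasLines.mkLine_ax (L := L) (hne X' hX')
    have hX2 := mem_T.1 hX
    have hX3 := mem_T.1 hX'
    rw [← heq] at h6
    exact (hX2.2 _ h3 h4 X' hX3.1 h6).symm
  · intro l hl
    rw [Finset.mem_filter] at hl
    obtain ⟨-, hZl, hc⟩ := hl
    obtain ⟨X, hX⟩ := Finset.card_eq_one.1 hc
    have hXon : X ∈ on B l := by rw [hX]; exact Finset.mem_singleton_self _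
    unfold on at hXon
    rw [Finset.mem_filter] at hXon
    have hZX : Z ≠ X := fun h => hZ (h ▸ hXon.1)
    have hall : ∀ l' : L, Z ∈ l' → X ∈ l' → l' = l := fun l' h1 h2 =>
      (Configuration.Nondegenerate.eq_or_eq h1 h2 hZl hXon.2).resolve_left hZX
    have hXT : X ∈ T L B Z := by
      rw [mem_T]
      refine ⟨hXon.1, fun l' h1 h2 Y hY hYl => ?_⟩
      rw [hall l' h1 h2] at hYl
      have : Y ∈ on B l := by unfold on; rw [Finset.mem_filter]; exact ⟨hY, hYl⟩
      rw [hX] at this
      exact Finset.mem_singleton.1 this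
    refine ⟨X, hXT, ?_⟩
    obtain ⟨h3, h4⟩ := Configuration.HasLines.mkLine_ax (L := L) (hne X hXT)
    exact hall _ h3 h4

/-- secants through the points outside `B` -/
theorem sum_sec (B : Finset P) :
    ∑ Z ∈ (Finset.univ \ B : Finset P), (Finset.univ.filter fun l : L => Z ∈ l ∧ 2 ≤ (on B l).card).card =
      ∑ l ∈ Finset.univ.filter (fun l : L => 2 ≤ (on B l).card),
        (ProjectivePlane.order P L + 1 - (on B l).card) := by
  have h1 := Finset.sum_card_bipartiteAbove_eq_sum_card_bipartiteBelow
    (s := (Finset.univ \ B : Finset P)) (t := Finset.univ.filter fun l : L => 2 ≤ (on B l).card)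
    (fun Z l => Z ∈ l)
  have h2 : ∀ Z : P, (Finset.univ.filter fun l : L => Z ∈ l ∧ 2 ≤ (on B l).card) =
      Finset.bipartiteAbove (fun (Z : P) (l : L) => Z ∈ l)
        (Finset.univ.filter fun l : L => 2 ≤ (on B l).card) Z := by
    intro Z
    unfold Finset.bipartiteAbove
    ext l
    simp [and_comm]
  rw [Finset.sum_congr rfl fun Z _ => by rw [h2 Z], h1]
  refine Finset.sum_congr rfl fun l _ => ?_
  have h3 : (Finset.bipartiteBelow (fun (Z : P) (l : L) => Z ∈ l) (Finset.univ \ B : Finset P) l).card +
      (on B l).card = ProjectivePlane.order P L + 1 := by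
    rw [← card_on (P := P) l]
    rw [← Finset.card_union_of_disjoint]
    · congr 1
      ext Z
      unfold Finset.bipartiteBelow on
      simp only [Finset.mem_union, Finset.mem_filter, Finset.mem_sdiff, Finset.mem_univ, true_and]
      tauto
    · rw [Finset.disjoint_left]
      intro Z hZ hZ2
      unfold Finset.bipartiteBelow at hZ
      unfold on at hZ2
      rw [Finset.mem_filter, Finset.mem_sdiff] at hZ
      rw [Finset.mem_filter] at hZ2
      exact hZ.1.2 hZ2.1
  omega

end Pool.Agent.H27.PS.Cnt
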