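import Mathlib

/-!
# Covering a finite set by `k` pairs of points in different classes
-/

namespace Pool.Agent.H27.PS

/-- Let `s` be a finite set with classes `cls`, at most `2 k` elements and at most `k` elements in
each class.  Then `s` is covered by `k` subsets with at most two elements, the elements of a
subset lying in different classes. -/
theorem exists_cover {P : Type*} [DecidableEq P] {C : Type*} [DecidableEq C] (s : Finset P)
    (cls : P → C) (k : ℕ) (h1 : s.card ≤ 2 * k)
    (h2 : ∀ c : C, (s.filter fun x => cls x = c).card ≤ k) :
    ∃ f : Fin k → Finset P, (∀ x ∈ s, ∃ i, x ∈ f i) ∧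
      ∀ i, f i ⊆ s ∧ (f i).card ≤ 2 ∧ ∀ x ∈ f i, ∀ y ∈ f i, x ≠ y → cls x ≠ cls y := by
  classical
  -- enumerate the classes
  obtain ⟨g, hg⟩ : ∃ g : C → ℕ, Set.InjOn g (s.image cls) := by
    have e := (s.image cls).equivFin
    refine ⟨fun c => if hc : c ∈ s.image cls then (e ⟨c, hc⟩ : ℕ) else 0, ?_⟩
    intro a ha b hb hab
    have ha' : a ∈ s.image cls := ha
    have hb' : b ∈ s.image cls := hb
    simp only [ha', hb', dif_pos] at hab
    have := e.injective (Fin.ext hab)
    exact congrArg Subtype.val this
  -- a sorted list
  set l : List P := s.toList.mergeSort (fun x y => decide (g (cls x) ≤ g (cls y))) with hl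
  have hperm : l.Perm s.toList := List.mergeSort_perm _ _
  have hlen : l.length = s.card := by rw [hperm.length_eq, Finset.length_toList]
  have hnd : l.Nodup := hperm.nodup_iff.2 s.nodup_toList
  have hmem : ∀ x, x ∈ l ↔ x ∈ s := fun x => by rw [hperm.mem_iff, Finset.mem_toList]
  have hsort : l.Pairwise (fun x y => g (cls x) ≤ g (cls y)) := by
    have := List.pairwise_mergeSort (le := fun x y => decide (g (cls x) ≤ g (cls y)))
      (fun a b c hab hbc => by
        simp only [decide_eq_true_eq] at *
        exact le_trans hab hbc)
      (fun a b => by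
        simp only [Bool.or_eq_true, decide_eq_true_eq]
        exact le_total _ _) s.toList
    exact this.imp (fun h => by simpa using h)
  have hmono : ∀ i j (hi : i < l.length) (hj : j < l.length), i ≤ j →
      g (cls (l[i]'hi)) ≤ g (cls (l[j]'hj)) := by
    intro i j hi hj hij
    rcases Nat.lt_or_ge i j with h | h
    · exact List.pairwise_iff_getElem.1 hsort i j hi hj h
    · have : i = j := le_antisymm hij h
      subst this
      exact le_rfl
  have hdiff : ∀ i (hi : i + k < l.length), cls (l[i]'(by omega)) ≠ cls (l[i + k]'hi) := by
    intro i hi heq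
    have hcl : ∀ j (hj : j ≤ k), cls (l[i + j]'(by omega)) = cls (l[i]'(by omega)) := by
      intro j hj
      have a1 := hmono i (i + j) (by omega) (by omega) (by omega)
      have a2 := hmono (i + j) (i + k) (by omega) hi (by omega)
      rw [← heq] at a2
      have a3 : g (cls (l[i + j]'(by omega))) = g (cls (l[i]'(by omega))) := le_antisymm a2 a1
      apply hg _ _ a3
      · exact Finset.mem_coe.2 (Finset.mem_image_of_mem _ ((hmem _).1 (List.getElem_mem _)))
      · exact Finset.mem_coe.2 (Finset.mem_image_of_mem _ ((hmem _).1 (List.getElem_mem _)))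
    have h3 := h2 (cls (l[i]'(by omega)))
    have h4 : k + 1 ≤ (s.filter fun x => cls x = cls (l[i]'(by omega))).card := by
      rw [← Fintype.card_fin (k + 1), ← Finset.card_univ]
      refine Finset.card_le_card_of_injOn
        (fun j : Fin (k + 1) => l[i + j.1]'(by have := j.2; omega)) ?_ ?_
      · intro j _
        simp only [Finset.coe_filter, Set.mem_ofPred_eq]
        exact ⟨(hmem _).1 (List.getElem_mem _), hcl j.1 (by have := j.2; omega)⟩
      · intro j1 _ j2 _ h
        have := (List.Nodup.getElem_inj_iff hnd).1 h
        exact Fin.ext (by omega)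
    omega
  refine ⟨fun i => (if h : i.1 < l.length then {l[i.1]'h} else ∅) ∪
    (if h : i.1 + k < l.length then {l[i.1 + k]'h} else ∅), ?_, ?_⟩
  · intro x hx
    obtain ⟨n, hn, rfl⟩ := List.getElem_of_mem ((hmem x).2 hx)
    by_cases hk : n < k
    · refine ⟨⟨n, hk⟩, ?_⟩
      simp [hn]
    · refine ⟨⟨n - k, by omega⟩, ?_⟩
      have e : n - k + k = n := by omega
      have h5 : n - k + k < l.length := by omega
      simp only [h5, dif_pos, Finset.mem_union]
      right
      simp [e]
  · intro i
    refine ⟨?_, ?_, ?_⟩
    · intro x hx
      rw [Finset.mem_union] at hx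
      rcases hx with hx | hx
      · split_ifs at hx with h
        · rw [Finset.mem_singleton] at hx
          rw [hx]
          exact (hmem _).1 (List.getElem_mem _)
        · exact absurd hx (Finset.notMem_empty _)
      · split_ifs at hx with h
        · rw [Finset.mem_singleton] at hx
          rw [hx]
          exact (hmem _).1 (List.getElem_mem _)
        · exact absurd hx (Finset.notMem_empty _)
    · refine le_trans (Finset.card_union_le _ _) ?_
      have a : (if h : i.1 < l.length then ({l[i.1]'h} : Finset P) else ∅).card ≤ 1 := by
        split_ifs <;> simp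
      have b : (if h : i.1 + k < l.length then ({l[i.1 + k]'h} : Finset P) else ∅).card ≤ 1 := by
        split_ifs <;> simp
      omega
    · intro x hx y hy hxy
      rw [Finset.mem_union] at hx hy
      rcases hx with hx | hx <;> rcases hy with hy | hy <;> split_ifs at hx hy with h h' <;>
        simp only [Finset.mem_singleton, Finset.notMem_empty] at hx hy
      · exact absurd (hx.trans hy.symm) hxy
      · rw [hx, hy]
        exact hdiff i.1 h'
      · rw [hx, hy]
        exact (hdiff i.1 h).symm
      · exact absurd (hx.trans hy.symm) hxy

end Pool.Agent.H27.PS
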